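import Pool.Agent.H151.Combi
import Pool.Agent.Helper292.ForceCH
import Pool.Agent.Q180.Pseudo

/-!
# A weakly Lindelöf space of cardinality `ℵ₁` which is not weakly Menger

Let `r γ`, `γ < ω₁`, be distinct points of the Cantor set. The points of the space are the nonempty
finite subsets of `ω₁`. A basic neighbourhood `N F n e` of `F` is given by `n < ω` and a function
`e` which is finite-to-one below the maximum of `F`; it consists of all finite `H ⊇ F` such that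
every `r β`, `β ∈ H`, agrees with some `r γ`, `γ ∈ F`, up to `n`, and such that `r β` and `r γ`
disagree below `e β` whenever `β ∈ H \ F`, `γ ∈ F` and `β < γ`. The space is zero-dimensional and
satisfies the countable chain condition, so it is weakly Lindelöf, but it is not weakly Menger. Its
cardinality is `ℵ₁`. Hence if `𝔡 > ℵ₁`, then a weakly Lindelöf space of cardinality less than `𝔡`
need not be weakly Menger; if `𝔡 = ℵ₁`, spaces of cardinality less than `𝔡` are countable.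
-/

set_option autoImplicit false

open Set

namespace Pool.Agent.Results.MP_ed8104_gt.SmallWeaklyLindelof

/-! ### Definitions -/

/-- `𝓤` is an open cover of `X`. -/
def IsOpenCover (X : Type) [TopologicalSpace X] (𝓤 : Set (Set X)) : Prop :=
  (∀ U ∈ 𝓤, IsOpen U) ∧ ⋃₀ 𝓤 = univ

/-- Weakly Lindelöf spaces. -/
def WeaklyLindelof (X : Type) [TopologicalSpace X] : Prop :=
  ∀ 𝓤 : Set (Set X), IsOpenCover X 𝓤 → ∃ 𝓥 ⊆ 𝓤, 𝓥.Countable ∧ Dense (⋃₀ 𝓥)

/-- Weakly Menger spaces. -/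
def WeaklyMenger (X : Type) [TopologicalSpace X] : Prop :=
  ∀ 𝓤 : ℕ → Set (Set X), (∀ n, IsOpenCover X (𝓤 n)) →
    ∃ 𝓥 : ℕ → Set (Set X), (∀ n, 𝓥 n ⊆ 𝓤 n ∧ (𝓥 n).Finite) ∧ Dense (⋃ n, ⋃₀ 𝓥 n)

/-- Weakly Scheepers spaces in the sense of Sakai. -/
def WeaklyScheepersSakai (X : Type) [TopologicalSpace X] : Prop :=
  ∀ 𝓤 : ℕ → Set (Set X), (∀ n, IsOpenCover X (𝓤 n)) →
    ∃ 𝓥 : ℕ → Set (Set X), (∀ n, 𝓥 n ⊆ 𝓤 n ∧ (𝓥 n).Finite) ∧
      ∀ 𝓕 : Set (Set X), 𝓕.Finite → (∀ U ∈ 𝓕, IsOpen U ∧ U.Nonempty) →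
        {n | ∀ U ∈ 𝓕, (U ∩ ⋃₀ 𝓥 n).Nonempty}.Infinite

/-- Weakly Scheepers spaces in the sense of Kočinac. -/
def WeaklyScheepersKocinac (X : Type) [TopologicalSpace X] : Prop :=
  ∀ 𝓤 : ℕ → Set (Set X), (∀ n, IsOpenCover X (𝓤 n)) →
    ∃ (Y : Set X) (𝓥 : ℕ → Set (Set X)), Dense Y ∧ (∀ n, 𝓥 n ⊆ 𝓤 n ∧ (𝓥 n).Finite) ∧
      ∀ F : Set X, F.Finite → F ⊆ Y → {n | F ⊆ ⋃₀ 𝓥 n}.Infinite

/-- The countable chain condition for spaces. -/
def CountableChain (X : Type) [TopologicalSpace X] : Prop :=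
  ∀ 𝒜 : Set (Set X), (∀ U ∈ 𝒜, IsOpen U ∧ U.Nonempty) →
    (∀ U ∈ 𝒜, ∀ V ∈ 𝒜, U ≠ V → Disjoint U V) → 𝒜.Countable

/-- The dominating number. -/
noncomputable def dNum : Cardinal.{0} :=
  sInf {κ | ∃ D : Set (ℕ → ℕ), Cardinal.mk D = κ ∧
    ∀ g : ℕ → ℕ, ∃ f ∈ D, ∀ᶠ n in Filter.atTop, g n ≤ f n}

theorem sakai_of_kocinac {X : Type} [TopologicalSpace X] (h : WeaklyScheepersKocinac X) :
    WeaklyScheepersSakai X := by
  intro 𝓤 h𝓤
  obtain ⟨Y, 𝓥, hY, h𝓥, hF⟩ := h 𝓤 h𝓤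
  refine ⟨𝓥, h𝓥, fun 𝓕 h𝓕 h𝓕' => ?_⟩
  have hpick : ∀ U : Set X, ∃ y : Set X, y.Finite ∧ y ⊆ Y ∩ U ∧ (U ∈ 𝓕 → y.Nonempty) := by
    intro U
    by_cases hU : U ∈ 𝓕
    · obtain ⟨y, hy⟩ := hY.inter_open_nonempty U (h𝓕' U hU).1 (h𝓕' U hU).2
      exact ⟨{y}, finite_singleton _, singleton_subset_iff.2 ⟨hy.2, hy.1⟩,
        fun _ => singleton_nonempty _⟩
    · exact ⟨∅, finite_empty, empty_subset _, fun h => absurd h hU⟩
  choose y hy1 hy2 hy3 using hpick
  refine (hF (⋃ U ∈ 𝓕, y U) (h𝓕.biUnion fun U _ => hy1 U)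
    (iUnion₂_subset fun U _ => (hy2 U).trans inter_subset_left)).mono ?_
  intro n hn U hU
  obtain ⟨z, hz⟩ := hy3 U hU
  exact ⟨z, (hy2 U hz).2, hn (mem_iUnion₂.2 ⟨U, hU, hz⟩)⟩

theorem menger_of_sakai {X : Type} [TopologicalSpace X] (h : WeaklyScheepersSakai X) :
    WeaklyMenger X := by
  intro 𝓤 h𝓤
  obtain ⟨𝓥, h𝓥, hF⟩ := h 𝓤 h𝓤
  refine ⟨𝓥, h𝓥, dense_iff_inter_open.2 fun U hU hne => ?_⟩
  obtain ⟨n, hn⟩ := (hF {U} (finite_singleton _) (by
    rintro _ rfl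
    exact ⟨hU, hne⟩)).nonempty
  obtain ⟨z, hz1, hz2⟩ := hn U rfl
  exact ⟨z, hz1, mem_iUnion.2 ⟨n, hz2⟩⟩

theorem kocinac_of_countable {X : Type} [TopologicalSpace X] [Countable X] :
    WeaklyScheepersKocinac X := by
  intro 𝓤 h𝓤
  rcases isEmpty_or_nonempty X with hX | hX
  · refine ⟨univ, fun _ => ∅, dense_univ, fun n => ⟨empty_subset _, finite_empty⟩,
      fun F _ _ => ?_⟩
    have : {n : ℕ | F ⊆ ⋃₀ (∅ : Set (Set X))} = univ :=
      eq_univ_of_forall fun n x => (IsEmpty.false x).elim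
    rw [this]
    exact infinite_univ
  · obtain ⟨e, he⟩ := exists_surjective_nat X
    have hpick : ∀ (n : ℕ) (x : X), ∃ U ∈ 𝓤 n, x ∈ U := by
      intro n x
      have : x ∈ ⋃₀ 𝓤 n := by rw [(h𝓤 n).2]; trivial
      exact this
    choose U hU hxU using hpick
    refine ⟨univ, fun n => (fun i => U n (e i)) '' Iic n, dense_univ, fun n => ⟨?_, ?_⟩,
      fun F hF _ => ?_⟩
    · rintro _ ⟨i, -, rfl⟩
      exact hU n _
    · exact (finite_Iic n).image _
    · choose i hi using he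
      obtain ⟨m, hm⟩ := (hF.image i).bddAbove
      refine (Set.Ici_infinite m).mono fun n hn x hx => ?_
      refine ⟨U n (e (i x)), ⟨i x, (hm ⟨x, hx, rfl⟩).trans hn, rfl⟩, ?_⟩
      rw [hi]
      exact hxU n x

/-! ### The first uncountable ordinal -/

/-- The first uncountable ordinal, as a well-ordered type. -/
abbrev I : Type := (Cardinal.aleph 1).ord.ToType

theorem countable_Iio (a : I) : (Iio a).Countable := by
  have h : Cardinal.mk (Iio a) < Cardinal.aleph 1 := by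
    have := Cardinal.mk_Iio_lt a (by simp)
    simpa using this
  rw [← Cardinal.le_aleph0_iff_set_countable]
  exact Order.lt_succ_iff.1 (h.trans_eq Cardinal.succ_aleph0.symm)

theorem countable_Iic (a : I) : (Iic a).Countable := by
  rw [← Iio_insert]
  exact (countable_Iio a).insert a

theorem uncountable_I : ¬ (univ : Set I).Countable := by
  rw [← Cardinal.le_aleph0_iff_set_countable, Cardinal.mk_univ]
  simp only [Cardinal.mk_toType, Cardinal.card_ord, not_le]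
  exact Cardinal.aleph0_lt_aleph_one

theorem exists_bound {A : Set I} (hA : A.Countable) : ∃ b, ∀ a ∈ A, a < b := by
  by_contra! h
  refine uncountable_I ((hA.biUnion fun a _ =>
    (countable_Iio a).union (countable_singleton a)).mono fun b _ => ?_)
  obtain ⟨a, ha, hab⟩ := h b
  refine mem_biUnion ha ?_
  rcases hab.lt_or_eq with h | h
  · exact Or.inl h
  · exact Or.inr h

instance : Nonempty I := by
  obtain ⟨b, _⟩ := exists_bound (countable_empty)
  exact ⟨b⟩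

/-! ### The space -/

variable (r : I → ℕ → Bool)

/-- The points of the space: the nonempty finite subsets of `ω₁`. -/
def Sp (_r : I → ℕ → Bool) : Type := {F : Finset I // F.Nonempty}

/-- The function `e` is finite-to-one below the maximum of `F`. -/
def Good (F : Finset I) (e : I → ℕ) : Prop := ∀ k, {β | (∃ γ ∈ F, β < γ) ∧ e β ≤ k}.Finite

/-- The basic neighbourhoods. -/
def N (F : Finset I) (n : ℕ) (e : I → ℕ) : Set (Sp r) :=
  {H | F ⊆ H.1 ∧ (∀ β ∈ H.1, ∃ γ ∈ F, ∀ i < n, r β i = r γ i) ∧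
    ∀ β ∈ H.1, β ∉ F → ∀ γ ∈ F, β < γ → ∃ i < e β, r β i ≠ r γ i}

variable {r}

theorem exists_good (H : Finset I) : ∃ e : I → ℕ, Good H e := by
  have hc : {β : I | ∃ γ ∈ H, β < γ}.Countable := by
    have : {β : I | ∃ γ ∈ H, β < γ} = ⋃ γ ∈ H, Iio γ := by
      ext β
      simp
    rw [this]
    exact (Finset.countable_toSet H).biUnion fun γ _ => countable_Iio γ
  obtain ⟨e, he⟩ := (Set.countable_iff_exists_injOn).1 hc
  refine ⟨e, fun k => ?_⟩
  refine Set.Finite.of_finite_image (f := e) ((finite_Iic k).subset ?_) ?_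
  · rintro _ ⟨β, ⟨-, h⟩, rfl⟩
    exact h
  · exact he.mono fun β hβ => hβ.1

theorem exists_good_le {F : Finset I} {e : I → ℕ} (he : Good F e) (H : Finset I) :
    ∃ e', Good H e' ∧ ∀ β, (∃ γ ∈ F, β < γ) → e' β ≤ e β := by
  classical
  obtain ⟨d, hd⟩ := exists_good H
  refine ⟨fun β => if ∃ γ ∈ F, β < γ then min (e β) (d β) else d β, fun k => ?_, fun β hβ => ?_⟩
  · refine ((he k).union (hd k)).subset ?_
    rintro β ⟨h1, h2⟩
    by_cases h : ∃ γ ∈ F, β < γ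
    · simp only [if_pos h] at h2
      rcases min_le_iff.1 h2 with h3 | h3
      · exact Or.inl ⟨h, h3⟩
      · exact Or.inr ⟨h1, h3⟩
    · simp only [if_neg h] at h2
      exact Or.inr ⟨h1, h2⟩
  · simp only [if_pos hβ]
    exact min_le_left _ _

theorem good_min {F : Finset I} {e d : I → ℕ} (he : Good F e) (hd : Good F d) :
    Good F fun β => min (e β) (d β) := by
  intro k
  refine ((he k).union (hd k)).subset ?_
  rintro β ⟨h1, h2⟩
  rcases min_le_iff.1 h2 with h3 | h3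
  · exact Or.inl ⟨h1, h3⟩
  · exact Or.inr ⟨h1, h3⟩

theorem N_mono {F : Finset I} {n m : ℕ} {e d : I → ℕ} (hnm : n ≤ m) (hde : ∀ β, d β ≤ e β) :
    N r F m d ⊆ N r F n e := by
  rintro H ⟨h1, h2, h3⟩
  refine ⟨h1, fun β hβ => ?_, fun β hβ hβF γ hγ hlt => ?_⟩
  · obtain ⟨γ, hγ, h⟩ := h2 β hβ
    exact ⟨γ, hγ, fun i hi => h i (hi.trans_le hnm)⟩
  · obtain ⟨i, hi, h⟩ := h3 β hβ hβF γ hγ hlt
    exact ⟨i, hi.trans_le (hde β), h⟩

instance : TopologicalSpace (Sp r) where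
  IsOpen U := ∀ F ∈ U, ∃ n e, Good F.1 e ∧ N r F.1 n e ⊆ U
  isOpen_univ := fun F _ => by
    obtain ⟨e, he⟩ := exists_good F.1
    exact ⟨0, e, he, subset_univ _⟩
  isOpen_inter := by
    rintro U V hU hV F ⟨h1, h2⟩
    obtain ⟨n, e, he, h3⟩ := hU F h1
    obtain ⟨m, d, hd, h4⟩ := hV F h2
    refine ⟨max n m, fun β => min (e β) (d β), good_min he hd, subset_inter ?_ ?_⟩
    · exact (N_mono (le_max_left _ _) fun β => min_le_left _ _).trans h3
    · exact (N_mono (le_max_right _ _) fun β => min_le_right _ _).trans h4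
  isOpen_sUnion := by
    rintro 𝓤 h𝓤 F ⟨U, hU, hF⟩
    obtain ⟨n, e, he, h⟩ := h𝓤 U hU F hF
    exact ⟨n, e, he, h.trans (subset_sUnion_of_mem hU)⟩

theorem isOpen_def {U : Set (Sp r)} :
    IsOpen U ↔ ∀ F ∈ U, ∃ n e, Good F.1 e ∧ N r F.1 n e ⊆ U := Iff.rfl

theorem mem_N_self (F : Sp r) (n : ℕ) (e : I → ℕ) : F ∈ N r F.1 n e :=
  ⟨subset_rfl, fun β hβ => ⟨β, hβ, fun _ _ => rfl⟩, fun β hβ hβ' => absurd hβ hβ'⟩

theorem isOpen_N {F : Finset I} {n : ℕ} {e : I → ℕ} (he : Good F e) : IsOpen (N r F n e) := by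
  classical
  rw [isOpen_def]
  rintro H ⟨h1, h2, h3⟩
  obtain ⟨e', he', hle⟩ := exists_good_le he H.1
  refine ⟨n, e', he', ?_⟩
  rintro J ⟨k1, k2, k3⟩
  refine ⟨h1.trans k1, fun β hβ => ?_, fun β hβ hβF γ hγ hlt => ?_⟩
  · obtain ⟨γ, hγ, h⟩ := k2 β hβ
    obtain ⟨δ, hδ, h'⟩ := h2 γ hγ
    exact ⟨δ, hδ, fun i hi => (h i hi).trans (h' i hi)⟩
  · by_cases hβH : β ∈ H.1
    · exact h3 β hβH hβF γ hγ hlt
    · obtain ⟨i, hi, h⟩ := k3 β hβ hβH γ (h1 hγ) hlt
      exact ⟨i, hi.trans_le (hle β ⟨γ, hγ, hlt⟩), h⟩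

/-- There is `n` such that `r β` is not `n`-close to any `r γ`, `γ ∈ H`. -/
theorem exists_far (hr : Function.Injective r) {H : Finset I} {β : I} (hβ : β ∉ H) :
    ∃ n, ∀ γ ∈ H, ∃ i < n, r β i ≠ r γ i := by
  classical
  have : ∀ γ ∈ H, ∃ i, r β i ≠ r γ i := fun γ hγ =>
    Function.ne_iff.1 (hr.ne fun h => hβ (h ▸ hγ))
  choose! i hi using this
  exact ⟨H.sup i + 1, fun γ hγ => ⟨i γ, Nat.lt_succ_of_le (Finset.le_sup hγ), hi γ hγ⟩⟩

theorem isClosed_N (hr : Function.Injective r) {F : Finset I} {n : ℕ} {e : I → ℕ} :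
    IsClosed (N r F n e) := by
  classical
  rw [← isOpen_compl_iff, isOpen_def]
  intro H hH
  obtain ⟨d, hd⟩ := exists_good H.1
  by_cases h1 : F ⊆ H.1
  · refine ⟨0, d, hd, ?_⟩
    rintro J ⟨k1, k2, k3⟩ ⟨m1, m2, m3⟩
    exact hH ⟨h1, fun β hβ => m2 β (k1 hβ), fun β hβ hβF γ hγ hlt => m3 β (k1 hβ) hβF γ hγ hlt⟩
  · obtain ⟨δ, hδF, hδH⟩ := Finset.not_subset.1 h1
    obtain ⟨m, hm⟩ := exists_far hr hδH
    refine ⟨m, d, hd, ?_⟩
    rintro J ⟨k1, k2, k3⟩ ⟨m1, m2, m3⟩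
    obtain ⟨γ, hγ, h⟩ := k2 δ (m1 hδF)
    obtain ⟨i, hi, hne⟩ := hm γ hγ
    exact hne (h i hi)

theorem basis (hr : Function.Injective r) :
    TopologicalSpace.IsTopologicalBasis {s : Set (Sp r) | IsClopen s} := by
  refine TopologicalSpace.isTopologicalBasis_of_isOpen_of_nhds (fun u hu => hu.2) ?_
  intro F U hF hU
  obtain ⟨n, e, he, h⟩ := isOpen_def.1 hU F hF
  exact ⟨N r F.1 n e, ⟨isClosed_N hr, isOpen_N he⟩, mem_N_self F n e, h⟩

theorem t35 (hr : Function.Injective r) : T35Space (Sp r) := by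
  have h1 : CompletelyRegularSpace (Sp r) :=
    CompletelyRegularSpace.of_isTopologicalBasis_clopens (basis hr)
  have h2 : T0Space (Sp r) := by
    refine (t0Space_iff_inseparable _).2 fun F H hFH => ?_
    have key : ∀ F H : Sp r, Inseparable F H → F.1 ⊆ H.1 := by
      intro F H h
      obtain ⟨e, he⟩ := exists_good F.1
      exact ((h.mem_open_iff (isOpen_N (r := r) (n := 0) he)).1 (mem_N_self F 0 e)).1
    exact Subtype.ext (Finset.Subset.antisymm (key F H hFH) (key H F hFH.symm))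
  exact { }

/-! ### The compatibility lemma -/

theorem compat (hr : Function.Injective r) {ι : Type} (J : Set ι) (hJ : ¬ J.Countable)
    (F : ι → Finset I) (n : ι → ℕ) (e : ι → I → ℕ) (he : ∀ ξ, Good (F ξ) (e ξ))
    (hne : ∀ ξ, (F ξ).Nonempty) (b : ι → Set ι) (hb : ∀ ξ, (b ξ).Countable) :
    ∃ ξ ∈ J, ∃ η ∈ J, η ∉ b ξ ∧ (N r (F ξ) (n ξ) (e ξ) ∩ N r (F η) (n η) (e η)).Nonempty := by
  classical
  obtain ⟨J1, R, hJ1, hJ1u, hR, hΔ⟩ := Pool.Agent.H151.delta_system F J hJ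
  -- distance to the root
  have hK : ∀ ξ : ι, ∃ K : ℕ, ∀ β ∈ F ξ, β ∉ R → ∀ γ ∈ R, ∃ i < K, r β i ≠ r γ i := by
    intro ξ
    have h1 : ∀ β : I, ∃ K : ℕ, β ∉ R → ∀ γ ∈ R, ∃ i < K, r β i ≠ r γ i := by
      intro β
      by_cases h : β ∈ R
      · exact ⟨0, fun h' => absurd h h'⟩
      · obtain ⟨K, hK⟩ := exists_far hr h
        exact ⟨K, fun _ => hK⟩
    choose K hK using h1
    refine ⟨(F ξ).sup K, fun β hβ hβR γ hγ => ?_⟩
    obtain ⟨i, hi, h⟩ := hK β hβR γ hγ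
    exact ⟨i, hi.trans_le (Finset.le_sup hβ), h⟩
  choose K0 hK0 using hK
  let ty : ι → Finset (List Bool) := fun ξ =>
    (F ξ).image fun β => (List.range (n ξ)).map (r β)
  obtain ⟨⟨n0, ty0, K1, k⟩, hJ2u⟩ := Pool.Agent.H151.uncountable_fiber
    (fun ξ => (n ξ, ty ξ, K0 ξ, (F ξ).card)) J1 hJ1u
  let J2 : Set ι := {ξ ∈ J1 | (n ξ, ty ξ, K0 ξ, (F ξ).card) = (n0, ty0, K1, k)}
  have hn : ∀ ξ ∈ J2, n ξ = n0 := fun ξ hξ => congrArg (fun x => x.1) hξ.2
  have hty : ∀ ξ ∈ J2, ty ξ = ty0 := fun ξ hξ => congrArg (fun x => x.2.1) hξ.2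
  have hK1 : ∀ ξ ∈ J2, K0 ξ = K1 := fun ξ hξ => congrArg (fun x => x.2.2.1) hξ.2
  have hcard : ∀ ξ ∈ J2, (F ξ).card = k := fun ξ hξ => congrArg (fun x => x.2.2.2) hξ.2
  -- agreement of types
  have hclose : ∀ ξ ∈ J2, ∀ η ∈ J2, ∀ β ∈ F η, ∃ γ ∈ F ξ, ∀ i < n ξ, r β i = r γ i := by
    intro ξ hξ η hη β hβ
    have h1 : (List.range (n η)).map (r β) ∈ ty η := Finset.mem_image_of_mem _ hβ
    rw [hty η hη, ← hty ξ hξ] at h1
    obtain ⟨γ, hγ, h2⟩ := Finset.mem_image.1 h1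
    refine ⟨γ, hγ, fun i hi => ?_⟩
    have h3 : n ξ = n η := (hn ξ hξ).trans (hn η hη).symm
    rw [h3] at h2 hi
    have h4 := congrArg (fun l => l[i]?) h2
    simp only [List.getElem?_map, List.getElem?_range hi, Option.map_some,
      Option.some.injEq] at h4
    exact h4.symm
  -- a countable infinite part
  have hJ2inf : J2.Infinite := fun h => hJ2u h.countable
  let ξs : ℕ → ι := fun m => hJ2inf.natEmbedding J2 m
  have hξs : ∀ m, ξs m ∈ J2 := fun m => (hJ2inf.natEmbedding J2 m).2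
  have hξinj : Function.Injective ξs :=
    Subtype.val_injective.comp (hJ2inf.natEmbedding J2).injective
  obtain ⟨α, hα⟩ := exists_bound (A := ⋃ m, (F (ξs m) : Set I))
    (countable_iUnion fun m => Finset.countable_toSet _)
  have hα' : ∀ m, ∀ β ∈ F (ξs m), β < α := fun m β hβ =>
    hα β (mem_iUnion.2 ⟨m, Finset.mem_coe.2 hβ⟩)
  have hRα : ∀ γ ∈ R, γ < α := fun γ hγ => hα' 0 γ (hR _ (hξs 0).1 hγ)
  -- the exceptional set
  let Z : Set ι := (⋃ m, b (ξs m)) ∪ ⋃ β ∈ Iio α, {η ∈ J2 | β ∈ F η ∧ β ∉ R}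
  have hZ : Z.Countable := by
    refine (countable_iUnion fun m => hb _).union ((countable_Iio α).biUnion fun β _ => ?_)
    refine Set.Subsingleton.countable ?_
    rintro η ⟨h1, h2, h3⟩ η' ⟨h1', h2', h3'⟩
    by_contra hne'
    exact h3 (hΔ η h1.1 η' h1'.1 hne' β h2 h2')
  have hJ3 : (J2 \ Z).Infinite := by
    intro h
    refine hJ2u ((h.countable.union hZ).mono fun x hx => ?_)
    by_cases hxZ : x ∈ Z
    · exact Or.inr hxZ
    · exact Or.inl ⟨hx, hxZ⟩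
  let ηs : ℕ → ι := fun m => hJ3.natEmbedding _ m
  have hηs : ∀ m, ηs m ∈ J2 \ Z := fun m => (hJ3.natEmbedding _ m).2
  have hηinj : Function.Injective ηs :=
    Subtype.val_injective.comp (hJ3.natEmbedding _).injective
  -- a good `η`
  have hgood : ∃ j, ∃ K : ℕ, {m : ℕ | ∀ β ∈ F (ξs m), β ∉ R → ∀ γ ∈ F (ηs j),
      ∃ i < K, r β i ≠ r γ i}.Infinite := by
    by_contra! hbad
    -- separate all elements of the `F (ηs j)`, `j ≤ k`
    let E : Finset I := (Finset.range (k + 1)).biUnion fun j => F (ηs j)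
    have hsep : ∃ K : ℕ, ∀ γ ∈ E, ∀ γ' ∈ E, γ ≠ γ' → ∃ i < K, r γ i ≠ r γ' i := by
      have h1 : ∀ γ : I, ∃ K : ℕ, ∀ γ' ∈ E.erase γ, ∃ i < K, r γ i ≠ r γ' i := fun γ =>
        exists_far hr (Finset.notMem_erase γ E)
      choose K hK using h1
      refine ⟨E.sup K, fun γ hγ γ' hγ' hne' => ?_⟩
      obtain ⟨i, hi, h⟩ := hK γ γ' (Finset.mem_erase.2 ⟨hne'.symm, hγ'⟩)
      exact ⟨i, hi.trans_le (Finset.le_sup hγ), h⟩
    obtain ⟨K, hK⟩ := hsep
    have hfin : (⋃ j ∈ Finset.range (k + 1), {m : ℕ | ∀ β ∈ F (ξs m), β ∉ R →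
        ∀ γ ∈ F (ηs j), ∃ i < max K K1, r β i ≠ r γ i}).Finite :=
      (Finset.finite_toSet _).biUnion fun j _ => hbad j (max K K1)
    obtain ⟨m, hm⟩ := hfin.exists_notMem
    have hm' : ∀ j ∈ Finset.range (k + 1), ∃ β ∈ F (ξs m), β ∉ R ∧ ∃ γ ∈ F (ηs j),
        ∀ i < max K K1, r β i = r γ i := by
      intro j hj
      by_contra! hcon
      refine hm (mem_iUnion₂.2 ⟨j, hj, fun β hβ hβR γ hγ => ?_⟩)
      exact hcon β hβ hβR γ hγ
    choose! β hβ hβR γ hγ hβγ using hm'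
    have hγR : ∀ j ∈ Finset.range (k + 1), γ j ∉ R := by
      intro j hj hγR
      obtain ⟨i, hi, h⟩ := hK0 (ξs m) (β j) (hβ j hj) (hβR j hj) (γ j) hγR
      rw [hK1 _ (hξs m)] at hi
      exact h (hβγ j hj i (hi.trans_le (le_max_right _ _)))
    have hinj : Set.InjOn β (Finset.range (k + 1)) := by
      intro j hj j' hj' hjj
      have hj0 : j ∈ Finset.range (k + 1) := hj
      have hj0' : j' ∈ Finset.range (k + 1) := hj'
      have h1 : γ j = γ j' := by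
        by_contra hne'
        obtain ⟨i, hi, h⟩ := hK (γ j) (Finset.mem_biUnion.2 ⟨j, hj0, hγ j hj0⟩) (γ j')
          (Finset.mem_biUnion.2 ⟨j', hj0', hγ j' hj0'⟩) hne'
        refine h ?_
        rw [← hβγ j hj0 i (hi.trans_le (le_max_left _ _)),
          ← hβγ j' hj0' i (hi.trans_le (le_max_left _ _)), hjj]
      by_contra hne'
      refine hγR j hj0 (hΔ (ηs j) (hηs j).1.1 (ηs j') (hηs j').1.1 (hηinj.ne hne') (γ j)
        (hγ j hj0) ?_)
      rw [h1]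
      exact hγ j' hj0'
    have h1 : ((Finset.range (k + 1)).image β).card = k + 1 := by
      rw [Finset.card_image_of_injOn hinj, Finset.card_range]
    have h2 : (Finset.range (k + 1)).image β ⊆ F (ξs m) := by
      intro x hx
      obtain ⟨j, hj, rfl⟩ := Finset.mem_image.1 hx
      exact hβ j hj
    have h3 := Finset.card_le_card h2
    rw [h1, hcard _ (hξs m)] at h3
    omega
  obtain ⟨j, K, hinf⟩ := hgood
  -- choose `ξ`
  have hbadfin : {m : ℕ | ∃ β ∈ F (ξs m), β ∉ R ∧ (∃ γ ∈ F (ηs j), β < γ) ∧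
      e (ηs j) β ≤ K}.Finite := by
    have h1 := he (ηs j) K
    refine (h1.biUnion (t := fun β => {m : ℕ | β ∈ F (ξs m) ∧ β ∉ R}) fun β _ => ?_).subset ?_
    · refine Set.Subsingleton.finite ?_
      rintro m ⟨h2, h3⟩ m' ⟨h2', h3'⟩
      by_contra hne'
      exact h3 (hΔ _ (hξs m).1 _ (hξs m').1 (hξinj.ne hne') β h2 h2')
    · rintro m ⟨β, h2, h3, h4, h5⟩
      exact mem_iUnion₂.2 ⟨β, ⟨h4, h5⟩, h2, h3⟩
  obtain ⟨m, hm1, hm2⟩ := (hinf.sdiff hbadfin).nonempty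
  have hm3 : ∀ β ∈ F (ξs m), β ∉ R → (∃ γ ∈ F (ηs j), β < γ) → K < e (ηs j) β := by
    intro β hβ hβR hγ
    by_contra hcon
    exact hm2 ⟨β, hβ, hβR, hγ, not_lt.1 hcon⟩
  refine ⟨ξs m, hJ1 (hξs m).1, ηs j, hJ1 (hηs j).1.1,
    fun h => (hηs j).2 (Or.inl (mem_iUnion.2 ⟨m, h⟩)),
    ⟨F (ξs m) ∪ F (ηs j), (hne _).mono Finset.subset_union_left⟩, ?_, ?_⟩
  · refine ⟨Finset.subset_union_left, fun β hβ => ?_, fun β hβ hβF γ hγ hlt => ?_⟩
    · rcases Finset.mem_union.1 hβ with h | h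
      · exact ⟨β, h, fun _ _ => rfl⟩
      · exact hclose _ (hξs m) _ (hηs j).1 β h
    · exfalso
      have h1 : β ∈ F (ηs j) := (Finset.mem_union.1 hβ).resolve_left hβF
      have h2 : β ∉ R := fun h => hβF (hR _ (hξs m).1 h)
      exact (hηs j).2 (Or.inr (mem_iUnion₂.2 ⟨β, hlt.trans (hα' m γ hγ), (hηs j).1, h1, h2⟩))
  · refine ⟨Finset.subset_union_right, fun β hβ => ?_, fun β hβ hβF γ hγ hlt => ?_⟩
    · rcases Finset.mem_union.1 hβ with h | h
      · exact hclose _ (hηs j).1 _ (hξs m) β h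
      · exact ⟨β, h, fun _ _ => rfl⟩
    · have h1 : β ∈ F (ξs m) := (Finset.mem_union.1 hβ).resolve_right hβF
      have h2 : β ∉ R := fun h => hβF (hR _ (hηs j).1.1 h)
      obtain ⟨i, hi, h⟩ := hm1 β h1 h2 γ hγ
      exact ⟨i, hi.trans (hm3 β h1 h2 ⟨γ, hγ, hlt⟩), h⟩

/-! ### Properties of the space -/

theorem countableChain (hr : Function.Injective r) : CountableChain (Sp r) := by
  classical
  intro 𝒜 h𝒜 hdisj
  by_contra hJ
  obtain ⟨F0⟩ : Nonempty (Sp r) := ⟨⟨{Classical.arbitrary I}, Finset.singleton_nonempty _⟩⟩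
  have hch : ∀ U : Set (Sp r), ∃ (F : Sp r) (n : ℕ) (e : I → ℕ), Good F.1 e ∧
      (U ∈ 𝒜 → N r F.1 n e ⊆ U) := by
    intro U
    by_cases hU : U ∈ 𝒜
    · obtain ⟨F, hF⟩ := (h𝒜 U hU).2
      obtain ⟨n, e, he, h⟩ := isOpen_def.1 (h𝒜 U hU).1 F hF
      exact ⟨F, n, e, he, fun _ => h⟩
    · obtain ⟨e, he⟩ := exists_good F0.1
      exact ⟨F0, 0, e, he, fun h => absurd h hU⟩
  choose F n e he hN using hch
  obtain ⟨U, hU, V, hV, hUV, x, hx1, hx2⟩ := compat hr 𝒜 hJ (fun U => (F U).1) n e he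
    (fun U => (F U).2) (fun U => {U}) (fun U => countable_singleton U)
  exact Set.disjoint_left.1 (hdisj U hU V hV fun h => hUV h.symm) (hN U hU hx1) (hN V hV hx2)

theorem weaklyLindelof (hr : Function.Injective r) : WeaklyLindelof (Sp r) := by
  classical
  intro 𝓤 h𝓤
  have h1 : ∀ F : Sp r, ∃ U ∈ 𝓤, F ∈ U := by
    intro F
    have : F ∈ ⋃₀ 𝓤 := by rw [h𝓤.2]; trivial
    exact this
  choose U hU hFU using h1
  have h2 : ∀ F : Sp r, ∃ n e, Good F.1 e ∧ N r F.1 n e ⊆ U F := fun F =>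
    isOpen_def.1 (h𝓤.1 _ (hU F)) F (hFU F)
  choose n e he hN using h2
  by_contra! hcon
  have h3 : ∀ α : I, ∃ (H : Sp r) (m : ℕ) (d : I → ℕ), Good H.1 d ∧
      ∀ F : Sp r, (∀ β ∈ F.1, β < α) → Disjoint (N r H.1 m d) (U F) := by
    intro α
    have hc : (U '' {F : Sp r | ∀ β ∈ F.1, β < α}).Countable := by
      refine Set.Countable.image ?_ _
      refine Set.countable_of_injective_of_countable_image
        (f := fun F : Sp r => (F.1 : Set I)) (fun F _ F' _ h =>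
          Subtype.ext (Finset.coe_injective h))
        ((Set.countable_ofPred_finite_subset (countable_Iio α)).mono ?_)
      rintro _ ⟨F, hF, rfl⟩
      exact ⟨F.1.finite_toSet, fun β hβ => hF β hβ⟩
    have h4 := hcon _ (by rintro _ ⟨F, -, rfl⟩; exact hU F) hc
    rw [dense_iff_inter_open] at h4
    push Not at h4
    obtain ⟨O, hO, ⟨H, hH⟩, h5⟩ := h4
    obtain ⟨m, d, hd, h6⟩ := isOpen_def.1 hO H hH
    refine ⟨H, m, d, hd, fun F hF => Set.disjoint_left.2 fun x hx hxU => ?_⟩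
    have h7 : x ∈ O ∩ ⋃₀ (U '' {F : Sp r | ∀ β ∈ F.1, β < α}) :=
      ⟨h6 hx, ⟨U F, ⟨F, hF, rfl⟩, hxU⟩⟩
    rw [h5] at h7
    exact h7
  choose H m d hd hdisj using h3
  obtain ⟨ξ, -, η, -, hη, x, hx1, hx2⟩ := compat hr univ uncountable_I (fun α => (H α).1)
    (fun α => max (m α) (n (H α))) (fun α β => min (d α β) (e (H α) β))
    (fun α => good_min (hd α) (he (H α))) (fun α => (H α).2)
    (fun ξ => {η | ¬ ∀ β ∈ (H ξ).1, β < η}) (fun ξ => by
      refine ((Finset.countable_toSet (H ξ).1).biUnion fun β _ => countable_Iic β).mono ?_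
      intro η hη
      simp only [mem_ofPred_eq, not_forall, not_lt] at hη
      obtain ⟨β, hβ, h⟩ := hη
      exact mem_iUnion₂.2 ⟨β, hβ, h⟩)
  have hη' : ∀ β ∈ (H ξ).1, β < η := by
    by_contra h
    exact hη h
  refine Set.disjoint_left.1 (hdisj η (H ξ) hη')
    (N_mono (le_max_left _ _) (fun β => min_le_left _ _) hx2) (hN (H ξ) ?_)
  exact N_mono (le_max_right _ _) (fun β => min_le_right _ _) hx1

theorem not_weaklyMenger : ¬ WeaklyMenger (Sp r) := by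
  classical
  intro h
  let U : ℕ → Sp r → Set (Sp r) := fun n F =>
    {H | F.1 ⊆ H.1 ∧ ∀ β ∈ H.1, ∃ γ ∈ F.1, ∀ i < n, r β i = r γ i}
  have hUo : ∀ n F, IsOpen (U n F) := by
    intro n F
    rw [isOpen_def]
    rintro H ⟨h1, h2⟩
    obtain ⟨e, he⟩ := exists_good H.1
    refine ⟨n, e, he, ?_⟩
    rintro J ⟨k1, k2, k3⟩
    refine ⟨h1.trans k1, fun β hβ => ?_⟩
    obtain ⟨γ, hγ, h⟩ := k2 β hβ
    obtain ⟨δ, hδ, h'⟩ := h2 γ hγ
    exact ⟨δ, hδ, fun i hi => (h i hi).trans (h' i hi)⟩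
  obtain ⟨𝓥, h𝓥, hdense⟩ := h (fun n => range (U n)) (fun n => ⟨by
    rintro _ ⟨F, rfl⟩
    exact hUo n F, eq_univ_of_forall fun F => ⟨U n F, ⟨F, rfl⟩, subset_rfl,
      fun β hβ => ⟨β, hβ, fun _ _ => rfl⟩⟩⟩)
  -- the finite sets of centres
  have h1 : ∀ n, ∃ 𝓕 : Set (Sp r), 𝓕.Finite ∧ ∀ V ∈ 𝓥 n, ∃ F ∈ 𝓕, V = U n F := by
    intro n
    have h2 : ∀ V : Set (Sp r), ∃ F : Sp r, V ∈ 𝓥 n → V = U n F := by
      intro V
      by_cases hV : V ∈ 𝓥 n
      · obtain ⟨F, hF⟩ := (h𝓥 n).1 hV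
        exact ⟨F, fun _ => hF.symm⟩
      · exact ⟨⟨{Classical.arbitrary I}, Finset.singleton_nonempty _⟩, fun h => absurd h hV⟩
    choose F hF using h2
    exact ⟨F '' 𝓥 n, (h𝓥 n).2.image F, fun V hV => ⟨F V, ⟨V, hV, rfl⟩, hF V hV⟩⟩
  choose 𝓕 h𝓕 h𝓕' using h1
  let C : ℕ → Set I := fun n => ⋃ F ∈ 𝓕 n, (F.1 : Set I)
  have hC : ∀ n, (C n).Finite := fun n => (h𝓕 n).biUnion fun F _ => F.1.finite_toSet
  obtain ⟨α, hα⟩ := exists_bound (A := ⋃ n, C n) (countable_iUnion fun n => (hC n).countable)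
  obtain ⟨d, hd⟩ := exists_good {α}
  let e : I → ℕ := fun β => if h : ∃ n, β ∈ C n then Nat.find h else d β
  have he : Good {α} e := by
    intro k
    refine ((hd k).union ((finite_Iic k).biUnion fun n _ => hC n)).subset ?_
    rintro β ⟨hβ1, hβ2⟩
    by_cases h : ∃ n, β ∈ C n
    · have h2 : e β = Nat.find h := dif_pos h
      rw [h2] at hβ2
      exact Or.inr (mem_iUnion₂.2 ⟨Nat.find h, hβ2, Nat.find_spec h⟩)
    · have h2 : e β = d β := dif_neg h
      rw [h2] at hβ2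
      exact Or.inl ⟨hβ1, hβ2⟩
  let x0 : Sp r := ⟨{α}, Finset.singleton_nonempty _⟩
  obtain ⟨H, hH1, hH2⟩ := hdense.inter_open_nonempty (N r {α} 0 e) (isOpen_N he)
    ⟨x0, mem_N_self x0 0 e⟩
  obtain ⟨n, hn⟩ := mem_iUnion.1 hH2
  obtain ⟨V, hV, hHV⟩ := hn
  obtain ⟨F, hF, rfl⟩ := h𝓕' n V hV
  obtain ⟨k1, k2, k3⟩ := hH1
  obtain ⟨β, hβ, hβα⟩ := hHV.2 α (k1 (Finset.mem_singleton_self α))
  have hβC : β ∈ C n := mem_iUnion₂.2 ⟨F, hF, hβ⟩
  have hβlt : β < α := hα β (mem_iUnion.2 ⟨n, hβC⟩)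
  obtain ⟨i, hi, hne⟩ := k3 β (hHV.1 hβ) (by
    rw [Finset.mem_singleton]
    exact hβlt.ne) α (Finset.mem_singleton_self α) hβlt
  have hex : ∃ n, β ∈ C n := ⟨n, hβC⟩
  have h2 : e β = Nat.find hex := dif_pos hex
  rw [h2] at hi
  exact hne (hβα i (hi.trans_le (Nat.find_min' hex hβC))).symm

theorem mk_sp : Cardinal.mk (Sp r) = Cardinal.aleph 1 := by
  have hI : Cardinal.mk I = Cardinal.aleph 1 := by simp
  have hinf : Infinite I := by
    rw [Cardinal.infinite_iff, hI]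
    exact Cardinal.aleph0_le_aleph 1
  refine le_antisymm ?_ ?_
  · rw [← hI, ← Cardinal.mk_finset_of_infinite I]
    exact Cardinal.mk_subtype_le _
  · rw [← hI]
    refine Cardinal.mk_le_of_injective
      (f := fun α : I => (⟨{α}, Finset.singleton_nonempty _⟩ : Sp r)) ?_
    intro α β h
    exact Finset.singleton_injective (congrArg Subtype.val h)

/-- There is a Tychonoff space of cardinality `ℵ₁` with the countable chain condition which is not
weakly Menger. -/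
theorem exists_space : ∃ (X : Type) (_ : TopologicalSpace X), T35Space X ∧ CountableChain X ∧
    WeaklyLindelof X ∧ Cardinal.mk X = Cardinal.aleph 1 ∧ ¬ WeaklyMenger X := by
  have hr : Nonempty (I ↪ (ℕ → Bool)) := by
    rw [← Cardinal.le_def]
    simp only [Cardinal.mk_toType, Cardinal.card_ord]
    have : Cardinal.mk (ℕ → Bool) = Cardinal.continuum := by simp
    rw [this]
    exact Cardinal.aleph_one_le_continuum
  obtain ⟨r⟩ := hr
  exact ⟨Sp r, inferInstance, t35 r.injective, countableChain r.injective,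
    weaklyLindelof r.injective, mk_sp, not_weaklyMenger⟩

/-! ### The dominating number -/

theorem dNum_mem : ∃ D : Set (ℕ → ℕ), Cardinal.mk D = dNum ∧
    ∀ g : ℕ → ℕ, ∃ f ∈ D, ∀ᶠ n in Filter.atTop, g n ≤ f n :=
  csInf_mem (s := {κ | ∃ D : Set (ℕ → ℕ), Cardinal.mk D = κ ∧
    ∀ g : ℕ → ℕ, ∃ f ∈ D, ∀ᶠ n in Filter.atTop, g n ≤ f n})
    ⟨_, univ, rfl, fun g => ⟨g, trivial, Filter.Eventually.of_forall fun _ => le_rfl⟩⟩

theorem dNum_le_of_ch (h : Cardinal.aleph 1 = Cardinal.continuum.{0}) :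
    dNum ≤ Cardinal.aleph 1 := by
  refine csInf_le' ⟨univ, ?_, fun g => ⟨g, trivial, Filter.Eventually.of_forall fun _ => le_rfl⟩⟩
  rw [h, Cardinal.mk_univ]
  simp

open Pool.Agent.W684 Pool.Agent.W684.FM in
theorem lt_dNum_of_ma (hMA : MartinAxiomAleph1) : Cardinal.aleph 1 < dNum := by
  classical
  by_contra hcon
  obtain ⟨D, hD, hdom⟩ := dNum_mem
  have hDc : Cardinal.mk D ≤ Cardinal.aleph 1 := hD ▸ not_lt.1 hcon
  let A : D ⊕ ℕ → Set ℕ := fun i => match i with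
    | Sum.inl f => {x | f.1 (Nat.unpair x).1 < (Nat.unpair x).2}
    | Sum.inr n => {x | n ≤ (Nat.unpair x).1}
  obtain ⟨B, hB, hBA⟩ := Pool.Agent.Q180.Pseudo.exists_pseudo (κ := Cardinal.aleph 1)
    (Cardinal.aleph0_le_aleph 1) (martinAxiomAleph1_iff.1 hMA) (I := D ⊕ ℕ) (by
      rw [Cardinal.mk_sum, Cardinal.lift_id, Cardinal.lift_id, Cardinal.mk_nat]
      exact (add_le_add hDc (Cardinal.aleph0_le_aleph 1)).trans
        (Cardinal.add_eq_self (Cardinal.aleph0_le_aleph 1)).le) A (by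
      intro F
      -- bounds
      let n0 : ℕ := F.sup fun i => match i with
        | Sum.inl _ => 0
        | Sum.inr n => n
      let v : ℕ → ℕ := fun k => (F.sup fun i => match i with
        | Sum.inl f => f.1 k
        | Sum.inr _ => 0) + 1
      refine (Set.infinite_range_of_injective (f := fun k : ℕ => Nat.pair (n0 + k) (v (n0 + k)))
        ?_).mono ?_
      · intro k k' h
        have := congrArg (fun x => (Nat.unpair x).1) h
        simp only [Nat.unpair_pair] at this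
        omega
      · rintro _ ⟨k, rfl⟩
        refine mem_iInter₂.2 fun i hi => ?_
        match i, hi with
        | Sum.inl f, hi =>
          show f.1 (Nat.unpair (Nat.pair (n0 + k) (v (n0 + k)))).1 <
            (Nat.unpair (Nat.pair (n0 + k) (v (n0 + k)))).2
          rw [Nat.unpair_pair]
          exact Nat.lt_succ_of_le (Finset.le_sup (f := fun i : D ⊕ ℕ => match i with
            | Sum.inl f => f.1 (n0 + k)
            | Sum.inr _ => 0) hi)
        | Sum.inr n, hi =>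
          show n ≤ (Nat.unpair (Nat.pair (n0 + k) (v (n0 + k)))).1
          rw [Nat.unpair_pair]
          exact (Finset.le_sup (f := fun i : D ⊕ ℕ => match i with
            | Sum.inl _ => 0
            | Sum.inr n => n) hi).trans (Nat.le_add_right _ _))
  let g : ℕ → ℕ := fun k => if h : ∃ m, Nat.pair k m ∈ B then h.choose else 0
  obtain ⟨f, hf, hgf⟩ := hdom g
  obtain ⟨n0, hn0⟩ := Filter.eventually_atTop.1 hgf
  obtain ⟨n1, hn1⟩ := ((hBA (Sum.inl ⟨f, hf⟩)).image fun x => (Nat.unpair x).1).bddAbove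
  obtain ⟨x, hx1, hx2⟩ := (hB.sdiff (hBA (Sum.inr (max n0 (n1 + 1))))).nonempty
  have hx3 : max n0 (n1 + 1) ≤ (Nat.unpair x).1 := by
    by_contra h
    exact hx2 ⟨hx1, h⟩
  have hex : ∃ m, Nat.pair (Nat.unpair x).1 m ∈ B := ⟨(Nat.unpair x).2, by
    rw [Nat.pair_unpair]; exact hx1⟩
  have hg : g (Nat.unpair x).1 = hex.choose := dif_pos hex
  have h1 : f (Nat.unpair x).1 < g (Nat.unpair x).1 := by
    rw [hg]
    by_contra h2
    have h3 : Nat.pair (Nat.unpair x).1 hex.choose ∈ B \ A (Sum.inl ⟨f, hf⟩) := by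
      refine ⟨hex.choose_spec, fun h4 => h2 ?_⟩
      have h5 : f (Nat.unpair (Nat.pair (Nat.unpair x).1 hex.choose)).1 <
        (Nat.unpair (Nat.pair (Nat.unpair x).1 hex.choose)).2 := h4
      rw [Nat.unpair_pair] at h5
      exact h5
    have h4 : (Nat.unpair (Nat.pair (Nat.unpair x).1 hex.choose)).1 ≤ n1 := hn1 ⟨_, h3, rfl⟩
    rw [Nat.unpair_pair] at h4
    have h5 : n1 + 1 ≤ (Nat.unpair x).1 := (le_max_right _ _).trans hx3
    exact absurd (h5.trans h4) (by omega)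
  exact absurd (hn0 _ ((le_max_left _ _).trans hx3)) (not_le.2 h1)

theorem countable_of_lt {X : Type} (h : Cardinal.mk X < dNum) (hd : dNum ≤ Cardinal.aleph 1) :
    Countable X := by
  have h1 : Cardinal.mk X < Cardinal.aleph 1 := h.trans_le hd
  rw [← Cardinal.mk_le_aleph0_iff]
  exact Order.lt_succ_iff.1 (h1.trans_eq Cardinal.succ_aleph0.symm)

/-- (1) In ZFC there is a Tychonoff space of cardinality `ℵ₁` which satisfies the countable chain
condition, so it is weakly Lindelöf, but is not weakly Menger. (2) Each of the three statements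
that every weakly Lindelöf space of cardinality less than `𝔡` is weakly Scheepers in the sense of
Kočinac, weakly Scheepers in the sense of Sakai, weakly Menger is equivalent to `𝔡 ≤ ℵ₁`.
(3), (4), (5) Martin's axiom for `ℵ₁` dense sets, which can be forced (preserving `ω₁`), implies
`𝔡 > ℵ₁`. (6), (7) The continuum hypothesis, which can be forced, implies `𝔡 ≤ ℵ₁`. -/
theorem result :
    (∃ (X : Type) (_ : TopologicalSpace X), T35Space X ∧ CountableChain X ∧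
      WeaklyLindelof X ∧ Cardinal.mk X = Cardinal.aleph 1 ∧ ¬ WeaklyMenger X) ∧
    (((∀ (X : Type) [TopologicalSpace X], WeaklyLindelof X → Cardinal.mk X < dNum →
        WeaklyScheepersKocinac X) ↔ dNum ≤ Cardinal.aleph 1) ∧
      ((∀ (X : Type) [TopologicalSpace X], WeaklyLindelof X → Cardinal.mk X < dNum →
        WeaklyScheepersSakai X) ↔ dNum ≤ Cardinal.aleph 1) ∧
      ((∀ (X : Type) [TopologicalSpace X], WeaklyLindelof X → Cardinal.mk X < dNum →
        WeaklyMenger X) ↔ dNum ≤ Cardinal.aleph 1)) ∧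
    (∃ (P : Type) (_ : Preorder P), Nonempty P ∧ ∀ p : P,
      p ∈ Pool.Agent.W684.FM.OmegaOnePreserved P ∧
        p ∈ Pool.Agent.W684.FM.MartinHolds P Pool.Agent.W684.FM.Om1) ∧
    (Pool.Agent.W684.FM.MartinFor Pool.Agent.W684.FM.Om1 ↔ Pool.Agent.W684.MartinAxiomAleph1) ∧
    (Pool.Agent.W684.MartinAxiomAleph1 → Cardinal.aleph 1 < dNum) ∧
    (∃ (P : Type) (_ : Preorder P), Nonempty P ∧ ∀ p : P,
      p ∈ Pool.Agent.Helper292.ForceCH.OmegaOnePreserved P ∧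
        p ∈ Pool.Agent.Helper292.ForceCH.CHHolds P) ∧
    (Cardinal.aleph 1 = Cardinal.continuum.{0} → dNum ≤ Cardinal.aleph 1) := by
  have hneg : (∀ (X : Type) [TopologicalSpace X], WeaklyLindelof X → Cardinal.mk X < dNum →
      WeaklyMenger X) → dNum ≤ Cardinal.aleph 1 := by
    intro h
    by_contra hcon
    obtain ⟨X, hX, -, -, h1, h2, h3⟩ := exists_space
    exact h3 (h X h1 (h2.trans_lt (not_le.1 hcon)))
  refine ⟨exists_space, ⟨⟨fun h => hneg fun X _ h1 h2 => menger_of_sakai (sakai_of_kocinac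
    (h X h1 h2)), fun h X _ _ h2 => ?_⟩, ⟨fun h => hneg fun X _ h1 h2 => menger_of_sakai
    (h X h1 h2), fun h X _ _ h2 => ?_⟩, ⟨hneg, fun h X _ _ h2 => ?_⟩⟩, ?_, ?_, lt_dNum_of_ma, ?_,
    dNum_le_of_ch⟩
  · have := countable_of_lt h2 h
    exact kocinac_of_countable
  · have := countable_of_lt h2 h
    exact sakai_of_kocinac kocinac_of_countable
  · have := countable_of_lt h2 h
    exact menger_of_sakai (sakai_of_kocinac kocinac_of_countable)
  · obtain ⟨P, hP, hne, h⟩ := Pool.Agent.W684.FM.exists_forcing Pool.Agent.W684.FM.Om1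
    exact ⟨P, hP, hne, fun p => (h p).2⟩
  · rw [Pool.Agent.W684.FM.martinFor_iff, Pool.Agent.W684.FM.martinAxiomAleph1_iff]
    have : Cardinal.mk Pool.Agent.W684.FM.Om1 = Cardinal.aleph 1 := by simp
    rw [this]
  · obtain ⟨P, i, h1, h2⟩ := Pool.Agent.Helper292.ForceCH.exists_forcing
    exact ⟨P, i, h1, fun p => ⟨(h2 p).1, (h2 p).2.2⟩⟩

end Pool.Agent.Results.MP_ed8104_gt.SmallWeaklyLindelof
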